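import Pool.Agent.W606.SN.Stm

set_option autoImplicit false

/-! Project SN: the intermediate level (S_INT). -/

namespace Pool.Agent.W645.SN.Int

open Pool.Agent.W606.SN

variable {F T : Type}

theorem zm (a : ZMod 2) : a = 0 ∨ a = 1 := by
  revert a
  decide

theorem om_symm (L A : F × T → Prop) (pos : F × T → ℕ) (y : ℕ) (p q : F × T) :
    om L A pos y p q = om L A pos y q p := by
  unfold om
  congr 1
  apply propext
  constructor
  · rintro ⟨h1, h2⟩
    exact ⟨by tauto, h2.symm⟩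
  · rintro ⟨h1, h2⟩
    exact ⟨by tauto, h2.symm⟩

theorem om_same (L A : F × T → Prop) (pos : F × T → ℕ) (y : ℕ) (p q : F × T)
    (h : ¬ (A p ↔ ¬ A q)) : om L A pos y p q = 0 := by
  unfold om
  rw [if_neg (fun h1 => h h1.1)]

/-- a section times a function with values in `ZMod 2` -/
theorem sec_mul [Fintype F] {GF : SimpleGraph F} {GT : SimpleGraph T} {W : Set T}
    {B : F × T → Prop} {ζ : T → F → ZMod 2} (hs : Sec GF GT W B ζ) (χ : F × T → ZMod 2)
    (hc : ∀ p q : F × T, p.2 ∈ W → q.2 ∈ W → RP GF GT p q → B p → B q → χ p = χ q)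
    (h1 : ∀ v ∈ W, ∑ u, ζ v u * χ (u, v) = 1) :
    Sec GF GT W (fun p => χ p = 1) (fun v u => ζ v u * χ (u, v)) := by
  refine ⟨?_, h1, ?_⟩
  · intro v _ u h
    rcases zm (χ (u, v)) with h2 | h2
    · rw [h2, mul_zero]
    · exact absurd h2 h
  · intro v hv v' hv' hadj f hf
    have h3 := hs.comp v hv v' hv' hadj (fun p => χ p * f p) (by
      intro p q hp hq hpq hBp hBq
      have hpW : p.2 ∈ W := by
        rcases hp with h | h
        · rw [h]; exact hv
        · rw [h]; exact hv'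
      have hqW : q.2 ∈ W := by
        rcases hq with h | h
        · rw [h]; exact hv
        · rw [h]; exact hv'
      have h4 := hc p q hpW hqW hpq hBp hBq
      change χ p * f p = χ q * f q
      rcases zm (χ p) with h5 | h5
      · rw [← h4, h5, zero_mul, zero_mul]
      · rw [← h4, h5, hf p q hp hq hpq h5 (h4.symm.trans h5)])
    simp only [← mul_assoc] at h3
    exact h3

theorem sec_mul' [Fintype F] {GF : SimpleGraph F} {GT : SimpleGraph T} {W : Set T}
    {B : F × T → Prop} {ζ : T → F → ZMod 2} (hs : Sec GF GT W B ζ) (χ : F × T → ZMod 2)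
    (hc : ∀ p q : F × T, p.2 ∈ W → q.2 ∈ W → RP GF GT p q → B p → B q → χ p = χ q)
    (h1 : ∀ v ∈ W, ∑ u, ζ v u * χ (u, v) = 0) :
    Sec GF GT W (fun p => ¬ χ p = 1) (fun v u => ζ v u * (1 + χ (u, v))) := by
  have h2 := sec_mul hs (fun p => 1 + χ p) (fun p q a b c d e => by rw [hc p q a b c d e]) (by
    intro v hv
    simp only [mul_add, mul_one]
    rw [Finset.sum_add_distrib, hs.one v hv, h1 v hv, add_zero])
  have h3 : (fun p : F × T => (1 + χ p = 1)) = fun p => ¬ χ p = 1 := by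
    funext p
    apply propext
    rcases zm (χ p) with h | h
    · rw [h]; decide
    · rw [h]; decide
  rw [h3] at h2
  exact h2

/-- the sum is constant along a connected set -/
theorem sum_const [Fintype F] {GF : SimpleGraph F} {GT : SimpleGraph T} {W : Set T}
    {B : F × T → Prop} {ζ : T → F → ZMod 2} (hs : Sec GF GT W B ζ) (χ : F × T → ZMod 2)
    (hc : ∀ p q : F × T, p.2 ∈ W → q.2 ∈ W → RP GF GT p q → B p → B q → χ p = χ q)
    (hconn : Conn GT W) (v : T) (hv : v ∈ W) (v' : T) (hv' : v' ∈ W) :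
    ∑ u, ζ v' u * χ (u, v') = ∑ u, ζ v u * χ (u, v) := by
  have h := hconn v hv v' hv'
  clear hv'
  induction h with
  | refl => rfl
  | @tail b d _ h1 ih =>
    rw [← ih]
    refine (hs.comp b h1.1 d h1.2.1 h1.2.2 χ ?_).symm
    intro p q hp hq hpq hBp hBq
    have hpW : p.2 ∈ W := by
      rcases hp with h | h
      · rw [h]; exact h1.1
      · rw [h]; exact h1.2.1
    have hqW : q.2 ∈ W := by
      rcases hq with h | h
      · rw [h]; exact h1.1
      · rw [h]; exact h1.2.1
    exact hc p q hpW hqW hpq hBp hBq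

/-- the meaning of `om y + om y' = 1` for an edge leaving `L` -/
theorem om_diff (L A : F × T → Prop) (pos : F × T → ℕ) (y y' : ℕ) (hy : y < y') (a b : F × T)
    (ha : L a) (hb : ¬ L b) (h : om L A pos y a b + om L A pos y' a b = 1) :
    (A a ↔ ¬ A b) ∧ y ≤ pos a ∧ pos a < y' := by
  have h1 : (A a ↔ ¬ A b) := by
    by_contra hc
    rw [om_same L A pos y a b hc, om_same L A pos y' a b hc] at h
    revert h
    decide
  have e : ∀ s, om L A pos s a b = if pos a < s then 1 else 0 := by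
    intro s
    unfold om
    by_cases hs : pos a < s
    · rw [if_pos hs, if_pos ⟨h1, Or.inl ⟨ha, hs⟩⟩]
    · rw [if_neg hs, if_neg]
      rintro ⟨_, h2 | h2⟩
      · exact hs h2.2
      · exact hb h2.1
  rw [e, e] at h
  refine ⟨h1, ?_, ?_⟩
  · by_contra hc
    push Not at hc
    rw [if_pos hc, if_pos (hc.trans hy)] at h
    revert h
    decide
  · by_contra hc
    rw [if_neg hc, if_neg (fun h2 => hc (h2.trans hy))] at h
    revert h
    decide

theorem main (hpot : S_POT) (homc : S_OMC) (hpar2 : S_PAR2) : S_INT := by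
  intro F T _ GF GT hGF hPF hPT W L A pos m z z' hSub hConn hz hz' hPW y y' hyy hT hT' v hv c c'
    hc hc' hne
  obtain ⟨χ1, hχ1⟩ := hpot F T GF GT hGF hPF hPT W (om L A pos y) (om_symm L A pos y)
    (homc F T GF GT W L A pos y hSub hT)
  obtain ⟨χ2, hχ2⟩ := hpot F T GF GT hGF hPF hPT W (om L A pos y') (om_symm L A pos y')
    (homc F T GF GT W L A pos y' hSub hT')
  -- the values of the parities
  have hcv : c = ∑ u, (z v u + z' v u) * χ1 (u, v) := by
    refine hpar2 F T GF hGF L A pos y z z' v (hz.one v hv) (hz'.one v hv) _ _ hc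
      ⟨fun u => χ1 (u, v), ?_, rfl⟩
    intro u u' huu
    exact hχ1 (u, v) (u', v) hv hv ⟨Or.inr huu, Or.inl rfl⟩
  have hcv' : c' = ∑ u, (z v u + z' v u) * χ2 (u, v) := by
    refine hpar2 F T GF hGF L A pos y' z z' v (hz.one v hv) (hz'.one v hv) _ _ hc'
      ⟨fun u => χ2 (u, v), ?_, rfl⟩
    intro u u' huu
    exact hχ2 (u, v) (u', v) hv hv ⟨Or.inr huu, Or.inl rfl⟩
  have hcc : c + c' = 1 := by
    rcases zm c with h | h <;> rcases zm c' with h' | h' <;> rw [h, h'] at hne ⊢ <;>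
      first | exact absurd rfl hne | decide
  let χ : F × T → ZMod 2 := fun p => χ1 p + χ2 p
  have hχ : ∀ p q : F × T, p.2 ∈ W → q.2 ∈ W → RP GF GT p q →
      χ p + χ q = om L A pos y p q + om L A pos y' p q := by
    intro p q hp hq hpq
    rw [← hχ1 p q hp hq hpq, ← hχ2 p q hp hq hpq]
    change χ1 p + χ2 p + (χ1 q + χ2 q) = _
    ring
  have hχA : ∀ p q : F × T, p.2 ∈ W → q.2 ∈ W → RP GF GT p q → ¬ (A p ↔ ¬ A q) →
      χ p = χ q := by
    intro p q hp hq hpq h
    have h1 := hχ p q hp hq hpq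
    rw [om_same _ _ _ _ _ _ h, om_same _ _ _ _ _ _ h, add_zero] at h1
    exact CharTwo.add_eq_zero.1 h1
  have hcA : ∀ p q : F × T, p.2 ∈ W → q.2 ∈ W → RP GF GT p q → A p → A q → χ p = χ q :=
    fun p q hp hq hpq h1 h2 => hχA p q hp hq hpq (fun h => h.1 h1 h2)
  have hcA' : ∀ p q : F × T, p.2 ∈ W → q.2 ∈ W → RP GF GT p q → ¬ A p → ¬ A q → χ p = χ q :=
    fun p q hp hq hpq h1 h2 => hχA p q hp hq hpq (fun h => h1 (h.2 h2))
  have hab : (∑ u, z v u * χ (u, v)) + (∑ u, z' v u * χ (u, v)) = 1 := by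
    rw [← hcc, hcv, hcv', ← Finset.sum_add_distrib, ← Finset.sum_add_distrib]
    refine Finset.sum_congr rfl fun u _ => ?_
    change z v u * (χ1 (u, v) + χ2 (u, v)) + z' v u * (χ1 (u, v) + χ2 (u, v)) = _
    ring
  have hzc := sum_const hz χ hcA hConn v hv
  have hzc' := sum_const hz' χ hcA' hConn v hv
  -- the new set
  have hSub' : Sub GF GT W L (fun p => χ p = 1) := by
    intro p q hp hq hpq h1 h2
    have h3 : χ q = 0 := by
      rcases zm (χ q) with h | h
      · exact h
      · exact absurd h h2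
    by_cases h4 : (A p ↔ ¬ A q)
    · by_cases h5 : A p
      · exact hSub p q hp hq hpq h5 (h4.1 h5)
      · have h6 : A q := by
          by_contra h
          exact h5 (h4.2 h)
        have h7 := hSub q p hq hp hpq.symm h6 h5
        tauto
    · have h5 := hχA p q hp hq hpq h4
      rw [h5, h3] at h1
      exact absurd h1 (by decide)
  have hPW' : ∃ x, HasR GF GT (m + 1) x W L (fun p => χ p = 1) pos := by
    rcases zm (∑ u, z v u * χ (u, v)) with h0 | h0
    · have h1 : ∑ u, z' v u * χ (u, v) = 1 := by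
        rw [h0, zero_add] at hab
        exact hab
      exact hPW _ hSub' ⟨_, sec_mul hz' χ hcA' (fun w hw => (hzc' w hw).trans h1)⟩
        ⟨_, sec_mul' hz χ hcA (fun w hw => (hzc w hw).trans h0)⟩
    · have h1 : ∑ u, z' v u * χ (u, v) = 0 := by
        rw [h0] at hab
        rcases zm (∑ u, z' v u * χ (u, v)) with h | h
        · exact h
        · rw [h] at hab
          exact absurd hab (by decide)
      exact hPW _ hSub' ⟨_, sec_mul hz χ hcA (fun w hw => (hzc w hw).trans h0)⟩
        ⟨_, sec_mul' hz' χ hcA' (fun w hw => (hzc' w hw).trans h1)⟩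
  obtain ⟨x, t, ht, hdis⟩ := hPW'
  have key : ∀ i, Tri GF GT W L A pos x (t i) ∧ y < x ∧ x < y' := by
    intro i
    have hi := ht i
    have e1 : χ (t i).1 + χ (t i).2.2 = 1 := by
      have h1 := hi.A13
      rcases zm (χ (t i).1) with h | h <;> rcases zm (χ (t i).2.2) with h' | h' <;>
        rw [h, h'] at h1 ⊢ <;> first | decide | (exfalso; revert h1; decide)
    have e2 : χ (t i).2.1 + χ (t i).2.2 = 1 := by
      have h1 := hi.A13
      have h2 := hi.A12
      have h3 : (χ (t i).2.1 = 1 ↔ ¬ χ (t i).2.2 = 1) := h2.symm.trans h1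
      rcases zm (χ (t i).2.1) with h | h <;> rcases zm (χ (t i).2.2) with h' | h' <;>
        rw [h, h'] at h3 ⊢ <;> first | decide | (exfalso; revert h3; decide)
    rw [hχ _ _ hi.w1 hi.w3 hi.r13] at e1
    rw [hχ _ _ hi.w2 hi.w3 hi.r23] at e2
    obtain ⟨a1, a2, a3⟩ := om_diff L A pos y y' hyy _ _ hi.L1 hi.L3 e1
    obtain ⟨b1, b2, b3⟩ := om_diff L A pos y y' hyy _ _ hi.L2 hi.L3 e2
    refine ⟨⟨hi.w1, hi.w2, hi.w3, hi.r12, hi.r13, hi.r23, hi.L1, hi.L2, hi.L3,
      a1.trans b1.symm, a1, hi.lt, hi.le⟩, ?_, ?_⟩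
    · exact lt_of_le_of_lt a2 hi.lt
    · exact lt_of_le_of_lt hi.le b3
  exact ⟨x, (key 0).2.1, (key 0).2.2, t, fun i => (key i).1, hdis⟩

end Pool.Agent.W645.SN.Int
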